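import Pool.Agent.Helper16.CY.Elim

/-!
# Theorem M, block P: common zeros of two coprime polynomials
-/

set_option autoImplicit false

namespace Pool.Agent.Helper13.M

open MvPolynomial

/-- Two coprime polynomials in `n` variables: the common zeros have small degree. -/
theorem dep_of_coprime {M Ω : Type} [Field M] [Field Ω] [Algebra M Ω] {n : ℕ}
    (p q : MvPolynomial (Fin n) M) (hpq : IsRelPrime p q) (z : Fin n → Ω) (hp : aeval z p = 0)
    (hq : aeval z q = 0) (i : Fin n) :
    ¬ AlgebraicIndependent M (fun j : {j : Fin n // j ≠ i} => z j) := by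
  obtain ⟨r, hr, h⟩ := Pool.Agent.Helper16.CY.exists_elim i hpq
  intro hind
  exact hr ((injective_iff_map_eq_zero _).mp hind r (h Ω z hp hq))

end Pool.Agent.Helper13.M
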